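import Pool.Agent.Q45.ND.Stm2

set_option autoImplicit false

/-! Project ND (helper45): the vectors of sum zero, basic facts. -/

namespace Pool.Agent.Q285.ND

open Pool.Agent.Q45.ND

variable {Ω : Type} [Fintype Ω] [DecidableEq Ω]

/-- the vector `e_i + e_j` -/
def e (i j : Ω) : EvV Ω := ⟨Pi.single i 1 + Pi.single j 1, by
  show ∑ k, (Pi.single i (1 : ZMod 2) + Pi.single j 1 : Ω → ZMod 2) k = 0
  simp only [Pi.add_apply, Finset.sum_add_distrib, Finset.sum_pi_single', Finset.mem_univ,
    if_true]
  decide⟩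

theorem two_mul_zero (x : ZMod 2) : x + x = 0 := CharTwo.add_self_eq_zero x

theorem cases2 (x : ZMod 2) : x = 0 ∨ x = 1 := by
  revert x
  decide

theorem e_apply (i j k : Ω) : (e i j).1 k = (if k = i then 1 else 0) + (if k = j then 1 else 0) := by
  show (Pi.single i (1 : ZMod 2) + Pi.single j 1 : Ω → ZMod 2) k = _
  rw [Pi.add_apply, Pi.single_apply, Pi.single_apply]

theorem e_symm (i j : Ω) : e i j = e j i := by
  apply Subtype.ext
  funext k
  rw [e_apply, e_apply, add_comm]

theorem e_self (i : Ω) : e i i = 0 := by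
  apply Subtype.ext
  funext k
  rw [e_apply]
  exact two_mul_zero _

theorem e_add (i j k : Ω) : e i j + e j k = e i k := by
  apply Subtype.ext
  funext l
  show (e i j).1 l + (e j k).1 l = _
  rw [e_apply, e_apply, e_apply]
  have h := two_mul_zero (if l = j then (1 : ZMod 2) else 0)
  linear_combination h

theorem e_ne_zero {i j : Ω} (h : i ≠ j) : e i j ≠ 0 := by
  intro h0
  have h1 : (e i j).1 i = 0 := by rw [h0]; rfl
  rw [e_apply, if_pos rfl, if_neg h] at h1
  exact absurd h1 (by decide)

omit [DecidableEq Ω] in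
theorem sum_zero (v : EvV Ω) : ∑ i, v.1 i = 0 := v.2

/-- expansion of a vector of sum zero -/
theorem expand (o : Ω) (v : EvV Ω) : v = ∑ i, v.1 i • e o i := by
  apply Subtype.ext
  funext k
  have h1 : (∑ i, v.1 i • e o i : EvV Ω).1 k = ∑ i, v.1 i * (e o i).1 k := by
    rw [AddSubmonoidClass.coe_finsetSum, Finset.sum_apply]
    rfl
  rw [h1]
  simp only [e_apply, mul_add, Finset.sum_add_distrib]
  have h2 : ∑ i, v.1 i * (if k = o then (1 : ZMod 2) else 0) = 0 := by
    rw [← Finset.sum_mul, sum_zero, zero_mul]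
  have h3 : ∑ i, v.1 i * (if k = i then (1 : ZMod 2) else 0) = v.1 k := by
    simp
  rw [h2, h3, zero_add]

/-- the permutation of a generator -/
theorem e_perm (s : Equiv.Perm Ω) (i j k : Ω) : (e (s i) (s j)).1 (s k) = (e i j).1 k := by
  rw [e_apply, e_apply]
  simp only [EmbeddingLike.apply_eq_iff_eq]

/-- a further point -/
theorem fresh (h : 7 ≤ Fintype.card Ω) (S : Finset Ω) (hS : S.card ≤ 6) : ∃ m, m ∉ S := by
  by_contra hcon
  push Not at hcon
  have h1 : S = Finset.univ := Finset.eq_univ_iff_forall.2 hcon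
  rw [h1, Finset.card_univ] at hS
  omega

theorem fresh5 (h : 7 ≤ Fintype.card Ω) (a b c d f : Ω) :
    ∃ m, m ≠ a ∧ m ≠ b ∧ m ≠ c ∧ m ≠ d ∧ m ≠ f := by
  obtain ⟨m, hm⟩ := fresh h {a, b, c, d, f} ((Finset.card_le_five).trans (by norm_num))
  simp only [Finset.mem_insert, Finset.mem_singleton, not_or] at hm
  exact ⟨m, hm.1, hm.2.1, hm.2.2.1, hm.2.2.2.1, hm.2.2.2.2⟩

/-- an endomorphism which multiplies all the generators is a scalar -/
theorem scalar_of (h : 7 ≤ Fintype.card Ω) (A : EvV Ω →ₗ[ZMod 2] EvV Ω)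
    (hA : ∀ i j : Ω, i ≠ j → A (e i j) = 0 ∨ A (e i j) = e i j) : A = 0 ∨ A = 1 := by
  -- the property `A (e i j) = 0` does not depend on `j`
  have h1 : ∀ i j k : Ω, i ≠ j → i ≠ k → A (e i j) = 0 → A (e i k) = 0 := by
    intro i j k hij hik h0
    by_cases hjk : j = k
    · rw [← hjk]; exact h0
    rcases hA i k hik with h2 | h2
    · exact h2
    exfalso
    have h3 : A (e j k) = e i k := by
      have h4 : e j k = e i j + e i k := by rw [e_symm i j, e_add]
      rw [h4, map_add, h0, h2, zero_add]
    rcases hA j k hjk with h5 | h5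
    · rw [h5] at h3
      exact e_ne_zero hik h3.symm
    · rw [h5] at h3
      have h6 := congrFun (congrArg Subtype.val h3) i
      rw [e_apply, e_apply, if_neg hij, if_neg hik, if_pos rfl] at h6
      exact absurd h6 (by decide)
  obtain ⟨o, _⟩ := fresh h (∅ : Finset Ω) (by simp)
  obtain ⟨a, hao, _⟩ := fresh5 h o o o o o
  by_cases h0 : A (e o a) = 0
  · left
    have h2 : ∀ i, A (e o i) = 0 := by
      intro i
      by_cases hi : o = i
      · rw [← hi, e_self, map_zero]
      · exact h1 o a i (Ne.symm hao) hi h0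
    apply LinearMap.ext
    intro v
    rw [LinearMap.zero_apply]
    conv_lhs => rw [expand o v]
    rw [map_sum]
    refine Finset.sum_eq_zero fun i _ => ?_
    rw [map_smul, h2, smul_zero]
  · right
    have h2 : ∀ i, A (e o i) = e o i := by
      intro i
      by_cases hi : o = i
      · rw [← hi, e_self, map_zero]
      · rcases hA o i hi with h3 | h3
        · exact absurd (h1 o i a hi (Ne.symm hao) h3) h0
        · exact h3
    apply LinearMap.ext
    intro v
    show A v = v
    conv_lhs => rw [expand o v]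
    conv_rhs => rw [expand o v]
    rw [map_sum]
    refine Finset.sum_congr rfl fun i _ => ?_
    rw [map_smul, h2]

end Pool.Agent.Q285.ND
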