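import Pool.Agent.Q285.ND.Ev

set_option autoImplicit false

/-! Project ND (helper45), job FORME: the invariant nondegenerate alternating form. -/

namespace Pool.Agent.Q285.ND.Form

open Pool.Agent.Q45.ND Pool.Agent.Q285.ND

theorem main : FormE := by
  intro Ω _ _ hodd hcard β halt hnd hinv
  have hinv' : ∀ (s : Equiv.Perm Ω) (i j k l : Ω),
      β (e (s i) (s j)) (e (s k) (s l)) = β (e i j) (e k l) := fun s i j k l =>
    hinv s _ _ _ _ (fun m => e_perm s i j m) (fun m => e_perm s k l m)
  -- a transposition
  have hsw : ∀ a b x : Ω, x ≠ a → x ≠ b → Equiv.swap a b x = x := fun a b x h1 h2 =>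
    Equiv.swap_apply_of_ne_of_ne h1 h2
  -- disjoint pairs
  have hc1 : ∀ i j k l : Ω, i ≠ j → k ≠ i → k ≠ j → l ≠ i → l ≠ j → β (e i j) (e k l) = 0 := by
    intro i j k l hij ki kj li lj
    obtain ⟨m, mi, mj, mk, ml, _⟩ := fresh5 hcard i j k l l
    have h1 : β (e i j) (e k l) + β (e j m) (e k l) = β (e i m) (e k l) := by
      rw [← e_add i j m, map_add, LinearMap.add_apply]
    have h2 : β (e i m) (e k l) = β (e i j) (e k l) := by
      have h3 := hinv' (Equiv.swap j m) i j k l
      rw [Equiv.swap_apply_left, hsw j m i hij (Ne.symm mi), hsw j m k kj (Ne.symm mk),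
        hsw j m l lj (Ne.symm ml)] at h3
      exact h3
    have h4 : β (e j m) (e k l) = β (e i m) (e k l) := by
      have h3 := hinv' (Equiv.swap i j) i m k l
      rw [Equiv.swap_apply_left, hsw i j m mi mj, hsw i j k ki kj, hsw i j l li lj] at h3
      exact h3
    rw [h4, h2, two_mul_zero] at h1
    exact h1.symm
  -- pairs with one common point
  have hc2 : ∀ i j k : Ω, i ≠ j → k ≠ i → k ≠ j → β (e i j) (e i k) = 1 := by
    intro i j k hij ki kj
    rcases cases2 (β (e i j) (e i k)) with h0 | h0
    · exfalso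
      apply e_ne_zero hij
      apply hnd
      intro w
      rw [expand i w, map_sum]
      refine Finset.sum_eq_zero fun m _ => ?_
      rw [map_smul]
      by_cases hmi : m = i
      · rw [hmi, e_self, map_zero, smul_zero]
      by_cases hmj : m = j
      · rw [hmj, halt, smul_zero]
      by_cases hmk : m = k
      · rw [hmk, h0, smul_zero]
      have h3 := hinv' (Equiv.swap k m) i j i k
      rw [Equiv.swap_apply_left, hsw k m i (Ne.symm ki) (Ne.symm hmi),
        hsw k m j (Ne.symm kj) (Ne.symm hmj), h0] at h3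
      rw [h3, smul_zero]
    · exact h0
  -- the value at a vector and a generator
  obtain ⟨o, _⟩ := fresh hcard (∅ : Finset Ω) (by simp)
  have hval : ∀ (v : EvV Ω) (j : Ω), β v (e o j) = v.1 o + v.1 j := by
    intro v j
    by_cases hj : j = o
    · rw [hj, e_self, map_zero, two_mul_zero]
    conv_lhs => rw [expand o v]
    rw [map_sum, LinearMap.sum_apply]
    have h1 : ∀ i ∈ (Finset.univ : Finset Ω), (β (v.1 i • e o i)) (e o j) =
        v.1 i + (if i = o then v.1 i else 0) + (if i = j then v.1 i else 0) := by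
      intro i _
      rw [map_smul, LinearMap.smul_apply, smul_eq_mul]
      by_cases hio : i = o
      · rw [hio, e_self, map_zero, LinearMap.zero_apply, mul_zero, if_pos rfl,
          if_neg (Ne.symm hj), add_zero, two_mul_zero]
      by_cases hij : i = j
      · rw [hij, halt, mul_zero, if_neg hj, if_pos rfl, add_zero, two_mul_zero]
      rw [hc2 o i j (Ne.symm hio) hj (Ne.symm hij), if_neg hio, if_neg hij, mul_one, add_zero,
        add_zero]
    rw [Finset.sum_congr rfl h1, Finset.sum_add_distrib, Finset.sum_add_distrib, sum_zero,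
      Finset.sum_ite_eq' Finset.univ o, Finset.sum_ite_eq' Finset.univ j, if_pos (Finset.mem_univ o),
      if_pos (Finset.mem_univ j), zero_add]
  intro v w
  conv_lhs => rw [expand o w]
  rw [map_sum]
  have h2 : ∀ i ∈ (Finset.univ : Finset Ω), β v (w.1 i • e o i) = w.1 i * v.1 o + v.1 i * w.1 i := by
    intro i _
    rw [map_smul, hval, smul_eq_mul, mul_add, mul_comm (w.1 i) (v.1 i)]
  rw [Finset.sum_congr rfl h2, Finset.sum_add_distrib, ← Finset.sum_mul, sum_zero, zero_mul,
    zero_add]

end Pool.Agent.Q285.ND.Form
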