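import Pool.Agent.Q46.ND.StmN
import Pool.Agent.Q46.ND.K4

/-! Project ND/OD (helper46): statement N1. -/

set_option autoImplicit false

open MvPolynomial NumberField Filter
open scoped Classical

namespace Pool.Agent.Q285.ND

open Pool.Agent.TH214.RM Pool.Agent.Q40.OD Pool.Agent.Q46.ND

section scale

variable {O ι : Type} [CommRing O] [Fintype ι] [DecidableEq ι]

theorem deh_lin (t : ι) (s e : O) (H G : MvPolynomial ι O) :
    deh t (C s * H + C e * G) = C s * deh t H + C e * deh t G := by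
  unfold deh
  rw [map_add, map_mul, map_mul, aeval_C, aeval_C]
  rfl

theorem pderiv_lin {σ : Type} (j : σ) (s e : O) (E E' : MvPolynomial σ O) :
    pderiv j (C s * E + C e * E') = C s * pderiv j E + C e * pderiv j E' := by
  rw [map_add, Derivation.leibniz, Derivation.leibniz, pderiv_C, pderiv_C, smul_zero, smul_zero,
    add_zero, add_zero, smul_eq_mul, smul_eq_mul]

theorem crit_lin (𝔭 : Ideal O) (s e : O) (hs : s ∉ 𝔭) (he : e ∈ 𝔭 ^ 2) (H G : MvPolynomial ι O)
    (h : Crit 𝔭 H) : Crit 𝔭 (C s * H + C e * G) := by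
  intro t Q hQ hlie hf
  have hsQ : (C s : MvPolynomial {j : ι // j ≠ t} O) ∉ Q := fun h' => hs ((hlie s).1 h')
  have heQ : (C e : MvPolynomial {j : ι // j ≠ t} O) ∈ Q ^ 2 := by
    have h1 : 𝔭.map (C : O →+* MvPolynomial {j : ι // j ≠ t} O) ≤ Q :=
      Ideal.map_le_iff_le_comap.2 fun r hr => (hlie r).2 hr
    have h2 : (C e : MvPolynomial {j : ι // j ≠ t} O) ∈ (𝔭 ^ 2).map C := Ideal.mem_map_of_mem _ he
    rw [Ideal.map_pow] at h2
    exact Ideal.pow_right_mono h1 2 h2
  have heQ' : (C e : MvPolynomial {j : ι // j ≠ t} O) ∈ Q := Ideal.pow_le_self two_ne_zero heQ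
  rw [deh_lin] at hf ⊢
  have hE : deh t H ∈ Q := by
    have h1 := Q.sub_mem hf (Q.mul_mem_right (deh t G) heQ')
    rw [add_sub_cancel_right] at h1
    exact (hQ.mem_or_mem h1).resolve_left hsQ
  rcases h t Q hQ hlie hE with ⟨j, hj⟩ | h1
  · left
    refine ⟨j, fun h2 => hj ?_⟩
    rw [pderiv_lin] at h2
    have h3 := Q.sub_mem h2 (Q.mul_mem_right (pderiv j (deh t G)) heQ')
    rw [add_sub_cancel_right] at h3
    exact (hQ.mem_or_mem h3).resolve_left hsQ
  · right
    intro f hf' h2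
    refine h1 (f * C s) (fun h3 => (hQ.mem_or_mem h3).elim hf' hsQ) ?_
    have h3 := (Q ^ 2).sub_mem h2 ((Q ^ 2).mul_mem_left f ((Q ^ 2).mul_mem_right (deh t G) heQ))
    have h4 : f * (C s * deh t H + C e * deh t G) - f * (C e * deh t G) = f * C s * deh t H := by
      ring
    rwa [h4] at h3

theorem nondeg_scale (𝔭 : Ideal O) (s : O) (hs : s ∉ 𝔭) (H : MvPolynomial ι O)
    (h : Nondeg 𝔭 H) : Nondeg 𝔭 (C s * H) := by
  intro t Q hQ hlie h0 h1
  have hsQ : (C s : MvPolynomial {j : ι // j ≠ t} O) ∉ Q := fun h' => hs ((hlie s).1 h')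
  have hdeh : deh t (C s * H) = C s * deh t H := by
    unfold deh
    rw [map_mul, aeval_C]
    rfl
  have hpd : ∀ (E : MvPolynomial {j : ι // j ≠ t} O) j, pderiv j (C s * E) = C s * pderiv j E := by
    intro E j
    rw [Derivation.leibniz, pderiv_C, smul_zero, add_zero, smul_eq_mul]
  rw [hdeh] at h0
  have h1' : ∀ j, pderiv j (deh t H) ∈ Q := by
    intro j
    have h2 := h1 j
    rw [hdeh, hpd] at h2
    exact (hQ.mem_or_mem h2).resolve_left hsQ
  have h2 := h t Q hQ hlie ((hQ.mem_or_mem h0).resolve_left hsQ) h1'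
  have h3 : Hess (deh t (C s * H)) =
      (C s : MvPolynomial {j : ι // j ≠ t} O) • Hess (deh t H) := by
    ext1 a b
    simp only [Hess, Matrix.smul_apply, Matrix.of_apply, smul_eq_mul]
    rw [hdeh, hpd, hpd]
  rw [h3, Matrix.det_smul]
  intro h4
  rcases hQ.mem_or_mem h4 with h5 | h5
  · exact hsQ (hQ.mem_of_pow_mem _ h5)
  · exact h2 h5

end scale

/-- common denominators of a substitution on forms of degree `d` -/
theorem denom {O K : Type} [CommRing O] [IsDomain O] [Field K] [Algebra O K] [IsFractionRing O K]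
    {n : ℕ} (d : ℕ) (l : K) (T : Matrix (Fin (n + 2)) (Fin (n + 2)) K) :
    ∃ a : O, a ≠ 0 ∧ ∀ G : MvPolynomial (Fin (n + 2)) O, G.IsHomogeneous d →
      ∃ G' : MvPolynomial (Fin (n + 2)) O, map (algebraMap O K) G' =
        C (algebraMap O K a) * (C l * aeval (fun i => ∑ j, C (T i j) * X j)
          (map (algebraMap O K) G)) := by
  obtain ⟨⟨l', b⟩, hb⟩ := IsLocalization.surj (nonZeroDivisors O) l
  obtain ⟨c, hc⟩ := IsLocalization.exist_integer_multiples_of_finite (nonZeroDivisors O)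
    (fun p : Fin (n + 2) × Fin (n + 2) => T p.1 p.2)
  choose t ht using hc
  have ht' : ∀ i j, algebraMap O K (t (i, j)) = algebraMap O K c * T i j := by
    intro i j
    exact (ht (i, j)).trans (Algebra.smul_def _ _)
  refine ⟨b * (c : O) ^ d, mul_ne_zero (nonZeroDivisors.coe_ne_zero b)
    (pow_ne_zero _ (nonZeroDivisors.coe_ne_zero c)), fun G hG => ?_⟩
  refine ⟨C l' * aeval (fun i => ∑ j, C (t (i, j)) * X j) G, ?_⟩
  have h1 : map (algebraMap O K) (aeval (fun i => ∑ j, C (t (i, j)) * X j) G) =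
      aeval (fun i => (∑ j, C (T i j) * X j) * C (algebraMap O K c))
        (map (algebraMap O K) G) := by
    have e1 : ∀ i, map (algebraMap O K) (∑ j, C (t (i, j)) * X j) =
        (∑ j, C (T i j) * X j) * C (algebraMap O K c) := by
      intro i
      rw [map_sum, Finset.sum_mul]
      refine Finset.sum_congr rfl fun j _ => ?_
      rw [map_mul, map_C, map_X, ht', C_mul]
      ring
    simp only [← e1]
    clear hG
    induction G using MvPolynomial.induction_on with
    | C a => simp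
    | add p q hp hq => simp only [map_add, hp, hq]
    | mul_X p i hp => simp only [map_mul, aeval_X, map_X, hp]
  have h2 : aeval (fun i => (∑ j, C (T i j) * X j) * C (algebraMap O K c))
        (map (algebraMap O K) G) = aeval (fun i => (∑ j, C (T i j) * X j : MvPolynomial (Fin (n + 2)) K))
        (map (algebraMap O K) G) * C (algebraMap O K c) ^ d :=
    aeval_scale _ _ d _ (hG.map _)
  have hb' : l * algebraMap O K (b : O) = algebraMap O K l' := hb
  have h3 : algebraMap O K (b * (c : O) ^ d) = algebraMap O K b * algebraMap O K c ^ d := by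
    rw [map_mul, map_pow]
  rw [map_mul, h1, h2, map_C, ← hb', h3, C_mul, C_mul, C_pow]
  ring

theorem t_N1 : P_N1 := by
  intro O K _ _ _ _ _ 𝔭 h𝔭 h0 w hw n d F₀ hF₀ hgood
  obtain ⟨H, l, T, T', hl, hT, hmap, hcrit⟩ := hgood
  obtain ⟨a, ha, hden⟩ := denom (O := O) d l T
  have hirr : Irreducible 𝔭 := (Ideal.prime_of_isPrime h0 h𝔭).irreducible
  have ha' : Ideal.span {a} ≠ ⊥ := by
    rwa [Ne, Ideal.span_singleton_eq_bot]
  obtain ⟨v, 𝔞, h1, h2⟩ := WfDvdMonoid.max_power_factor ha' hirr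
  rw [Ideal.dvd_iff_le, SetLike.not_le_iff_exists] at h1
  obtain ⟨s, hs, hs𝔭⟩ := h1
  refine ⟨v + 2, fun k hk G hG => ?_⟩
  have h3 : s * w ^ k ∈ Ideal.span {a} * 𝔭 ^ 2 := by
    have h4 : w ^ k ∈ 𝔭 ^ (v + 2) := Ideal.pow_le_pow_right hk (Ideal.pow_mem_pow hw k)
    have h5 := Ideal.mul_mem_mul hs h4
    rw [h2]
    have h6 : 𝔭 ^ v * 𝔞 * 𝔭 ^ 2 = 𝔞 * 𝔭 ^ (v + 2) := by
      rw [pow_add]
      ring
    rw [h6]
    exact h5
  obtain ⟨e, he, hae⟩ := Ideal.mem_span_singleton_mul.1 h3
  obtain ⟨G', hG'⟩ := hden G hG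
  have hsK : algebraMap O K s ≠ 0 := by
    intro h
    have h7 : s = 0 := (IsFractionRing.injective O K) (by rw [h, map_zero])
    apply hs𝔭
    rw [h7]
    exact 𝔭.zero_mem
  refine ⟨C s * H + C e * G', algebraMap O K s * l, T, T', mul_ne_zero hsK hl, hT, ?_, ?_⟩
  · have hae' : algebraMap O K a * algebraMap O K e = algebraMap O K s * algebraMap O K (w ^ k) := by
      rw [← map_mul, ← map_mul, hae]
    have hae2 : (C (algebraMap O K e) : MvPolynomial (Fin (n + 2)) K) * C (algebraMap O K a) =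
        C (algebraMap O K s) * C (algebraMap O K (w ^ k)) := by
      rw [← C_mul, ← C_mul, mul_comm, hae']
    have e1 : MvPolynomial.map (algebraMap O K) (F₀ + C (w ^ k) * G) = map (algebraMap O K) F₀ +
        C (algebraMap O K (w ^ k)) * map (algebraMap O K) G := by
      rw [map_add, map_mul, map_C]
    have e2 : MvPolynomial.map (algebraMap O K) (C s * H + C e * G') = C (algebraMap O K s) *
        map (algebraMap O K) H + C (algebraMap O K e) * map (algebraMap O K) G' := by
      rw [map_add, map_mul, map_mul, map_C, map_C]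
    have h8 : (aeval fun i => ∑ j, C (T i j) * X j) (C (algebraMap O K (w ^ k))) =
        (C (algebraMap O K (w ^ k)) : MvPolynomial (Fin (n + 2)) K) := by
      rw [aeval_C]
      rfl
    rw [e1, e2, hmap, hG', map_add, map_mul, map_mul, h8, ← mul_assoc (C (algebraMap O K e)), hae2]
    ring
  · rcases hcrit with h | h
    · exact Or.inl (crit_lin 𝔭 s e hs𝔭 he H G' h)
    · exact Or.inr (nondeg_add 𝔭 _ G' e (Ideal.pow_le_self two_ne_zero he)
        (nondeg_scale 𝔭 s hs𝔭 H h))

end Pool.Agent.Q285.ND
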