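import Pool.Agent.Q285.ND.Ev

set_option autoImplicit false

/-! Project ND (helper45), job SCALE: endomorphisms which commute with the cycles of length three. -/

namespace Pool.Agent.Q285.ND.Scale

open Pool.Agent.Q45.ND Pool.Agent.Q285.ND

/-- a cycle of length three which maps `k` to `l` -/
theorem cyc {Ω : Type} [Fintype Ω] [DecidableEq Ω] (k l m : Ω) (hkl : k ≠ l) (hkm : k ≠ m)
    (hlm : l ≠ m) : ∃ s : Equiv.Perm Ω, s.IsThreeCycle ∧ s k = l ∧
      ∀ x, x ≠ k → x ≠ l → x ≠ m → s x = x := by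
  refine ⟨Equiv.swap k m * Equiv.swap k l,
    Equiv.Perm.isThreeCycle_swap_mul_swap_same hkm hkl (Ne.symm hlm), ?_, ?_⟩
  · rw [Equiv.Perm.mul_apply, Equiv.swap_apply_left, Equiv.swap_apply_of_ne_of_ne (Ne.symm hkl) hlm]
  · intro x h1 h2 h3
    rw [Equiv.Perm.mul_apply, Equiv.swap_apply_of_ne_of_ne h1 h2, Equiv.swap_apply_of_ne_of_ne h1 h3]

theorem main : ScalE := by
  intro Ω _ _ hodd hcard A hA
  -- the values at the generators
  have key : ∀ s : Equiv.Perm Ω, s.IsThreeCycle → ∀ a b i : Ω,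
      (A (e (s a) (s b))).1 (s i) = (A (e a b)).1 i := by
    intro s hs a b i
    exact hA s hs (e a b) (e (s a) (s b)) (fun k => e_perm s a b k) i
  have hconst : ∀ a b k l : Ω, k ≠ a → k ≠ b → l ≠ a → l ≠ b →
      (A (e a b)).1 l = (A (e a b)).1 k := by
    intro a b k l ka kb la lb
    by_cases hkl : k = l
    · rw [hkl]
    obtain ⟨m, ma, mb, mk, ml, _⟩ := fresh5 hcard a b k l l
    obtain ⟨s, hs, h1, h2⟩ := cyc k l m hkl (Ne.symm mk) (Ne.symm ml)
    have h3 := key s hs a b k
    rw [h1, h2 a (Ne.symm ka) (Ne.symm la) (Ne.symm ma),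
      h2 b (Ne.symm kb) (Ne.symm lb) (Ne.symm mb)] at h3
    exact h3
  have htrans : ∀ a b c k : Ω, b ≠ a → c ≠ a → k ≠ a → k ≠ b → k ≠ c →
      (A (e a c)).1 k = (A (e a b)).1 k := by
    intro a b c k ba ca ka kb kc
    by_cases hbc : b = c
    · rw [hbc]
    obtain ⟨m, ma, mb, mc, mk, _⟩ := fresh5 hcard a b c k k
    obtain ⟨s, hs, h1, h2⟩ := cyc b c m hbc (Ne.symm mb) (Ne.symm mc)
    have h3 := key s hs a b k
    rw [h1, h2 a (Ne.symm ba) (Ne.symm ca) (Ne.symm ma), h2 k kb kc (Ne.symm mk)] at h3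
    exact h3
  have hzero : ∀ i j l : Ω, i ≠ j → l ≠ i → l ≠ j → (A (e i j)).1 l = 0 := by
    intro i j l hij hli hlj
    obtain ⟨k, ki, kj, kl, _, _⟩ := fresh5 hcard i j l l l
    have h1 : (A (e i j)).1 l + (A (e j k)).1 l = (A (e i k)).1 l := by
      rw [← e_add i j k, map_add]
      rfl
    have h2 : (A (e j k)).1 l = (A (e i j)).1 l := by
      rw [e_symm i j]
      exact htrans j i k l hij kj hlj hli (Ne.symm kl)
    have h3 : (A (e i k)).1 l = (A (e i j)).1 l :=
      htrans i j k l (Ne.symm hij) ki hli hlj (Ne.symm kl)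
    rw [h2, h3, two_mul_zero] at h1
    exact h1.symm
  refine scalar_of hcard A (fun i j hij => ?_)
  have h1 : (A (e i j)).1 i + (A (e i j)).1 j = 0 := by
    have h2 := sum_zero (A (e i j))
    rw [Fintype.sum_eq_add i j hij (fun l hl => hzero i j l hij hl.1 hl.2)] at h2
    exact h2
  rcases cases2 ((A (e i j)).1 i) with hi | hi
  · left
    rw [hi, zero_add] at h1
    apply Subtype.ext
    funext l
    show (A (e i j)).1 l = 0
    by_cases hli : l = i
    · rw [hli, hi]
    by_cases hlj : l = j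
    · rw [hlj, h1]
    exact hzero i j l hij hli hlj
  · right
    have hj : (A (e i j)).1 j = 1 := by
      rcases cases2 ((A (e i j)).1 j) with h3 | h3
      · rw [hi, h3] at h1
        exact absurd h1 (by decide)
      · exact h3
    apply Subtype.ext
    funext l
    rw [e_apply]
    by_cases hli : l = i
    · rw [hli, hi, if_pos rfl, if_neg hij, add_zero]
    by_cases hlj : l = j
    · rw [hlj, hj, if_pos rfl, if_neg (Ne.symm hij), zero_add]
    rw [hzero i j l hij hli hlj, if_neg hli, if_neg hlj, add_zero]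

end Pool.Agent.Q285.ND.Scale
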