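import Pool.Agent.Q285.ND.Ev

set_option autoImplicit false

/-! Project ND (helper45), job SKEWE: stable spaces of skew endomorphisms. -/

namespace Pool.Agent.Q285.ND.Skew

open Module Pool.Agent.Q45.ND Pool.Agent.Q285.ND
open Pool.Agent.Q45.OI (skewEnd)

variable {Ω : Type} [Fintype Ω] [DecidableEq Ω]

/-- the permutation `s` of the coordinates -/
def pm (s : Equiv.Perm Ω) : EvV Ω →ₗ[ZMod 2] EvV Ω where
  toFun v := ⟨fun i => v.1 (s.symm i), by
    show ∑ i, v.1 (s.symm i) = 0
    rw [Equiv.sum_comp s.symm (fun i => v.1 i)]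
    exact v.2⟩
  map_add' _ _ := rfl
  map_smul' _ _ := rfl

omit [DecidableEq Ω] in
theorem pm_apply (s : Equiv.Perm Ω) (v : EvV Ω) (i : Ω) : (pm s v).1 i = v.1 (s.symm i) := rfl

theorem pm_e (s : Equiv.Perm Ω) (i j : Ω) : pm s (e i j) = e (s i) (s j) := by
  apply Subtype.ext
  funext k
  have h := e_perm s i j (s.symm k)
  rw [Equiv.apply_symm_apply] at h
  rw [pm_apply, h]

theorem pm_symm (s : Equiv.Perm Ω) (v : EvV Ω) : pm s.symm (pm s v) = v := by
  apply Subtype.ext
  funext k
  rw [pm_apply, pm_apply, Equiv.symm_symm, Equiv.symm_apply_apply]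

theorem pm_symm' (s : Equiv.Perm Ω) (v : EvV Ω) : pm s (pm s.symm v) = v := by
  apply Subtype.ext
  funext k
  rw [pm_apply, pm_apply, Equiv.symm_symm, Equiv.apply_symm_apply]

/-- the conjugate endomorphism -/
def cj (s : Equiv.Perm Ω) (A : EvV Ω →ₗ[ZMod 2] EvV Ω) : EvV Ω →ₗ[ZMod 2] EvV Ω :=
  pm s ∘ₗ A ∘ₗ pm s.symm

/-- the form `v ↦ β(x, v) y + β(y, v) x` -/
noncomputable def TT (β : EvV Ω →ₗ[ZMod 2] EvV Ω →ₗ[ZMod 2] ZMod 2) :
    EvV Ω →ₗ[ZMod 2] EvV Ω →ₗ[ZMod 2] (EvV Ω →ₗ[ZMod 2] EvV Ω) :=
  LinearMap.mk₂ (ZMod 2) (fun x y => (β x).smulRight y + (β y).smulRight x)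
    (by
      intro x x' y
      apply LinearMap.ext
      intro v
      simp only [LinearMap.add_apply, LinearMap.smulRight_apply, map_add]
      module)
    (by
      intro c x y
      apply LinearMap.ext
      intro v
      simp only [LinearMap.add_apply, LinearMap.smulRight_apply, map_smul, LinearMap.smul_apply,
        smul_eq_mul]
      module)
    (by
      intro x y y'
      apply LinearMap.ext
      intro v
      simp only [LinearMap.add_apply, LinearMap.smulRight_apply, map_add]
      module)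
    (by
      intro c x y
      apply LinearMap.ext
      intro v
      simp only [LinearMap.add_apply, LinearMap.smulRight_apply, map_smul, LinearMap.smul_apply,
        smul_eq_mul]
      module)

omit [DecidableEq Ω] in
theorem TT_apply (β : EvV Ω →ₗ[ZMod 2] EvV Ω →ₗ[ZMod 2] ZMod 2) (x y v : EvV Ω) :
    TT β x y v = β x v • y + β y v • x := rfl

omit [DecidableEq Ω] in
theorem dbl (v : EvV Ω) : v + v = 0 := by
  apply Subtype.ext
  funext i
  exact two_mul_zero (v.1 i)

omit [DecidableEq Ω] in
theorem TT_symm (β : EvV Ω →ₗ[ZMod 2] EvV Ω →ₗ[ZMod 2] ZMod 2) (x y : EvV Ω) :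
    TT β x y = TT β y x := by
  apply LinearMap.ext
  intro v
  rw [TT_apply, TT_apply, add_comm]

omit [DecidableEq Ω] in
theorem TT_self (β : EvV Ω →ₗ[ZMod 2] EvV Ω →ₗ[ZMod 2] ZMod 2) (x : EvV Ω) : TT β x x = 0 := by
  apply LinearMap.ext
  intro v
  rw [TT_apply, dbl]
  rfl

omit [DecidableEq Ω] in
theorem dblA (A : EvV Ω →ₗ[ZMod 2] EvV Ω) : A + A = 0 := by
  apply LinearMap.ext
  intro v
  exact dbl (A v)

omit [Fintype Ω] [DecidableEq Ω] in
/-- four different points can be moved to four different points -/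
theorem move (i j k l i' j' k' l' : Ω) (h1 : i ≠ j) (h2 : i ≠ k) (h3 : i ≠ l) (h4 : j ≠ k)
    (h5 : j ≠ l) (h6 : k ≠ l) (g1 : i' ≠ j') (g2 : i' ≠ k') (g3 : i' ≠ l') (g4 : j' ≠ k')
    (g5 : j' ≠ l') (g6 : k' ≠ l') :
    ∃ s : Equiv.Perm Ω, s i = i' ∧ s j = j' ∧ s k = k' ∧ s l = l' := by
  have hx : Function.Injective ![i, j, k, l] := by
    intro a b hab
    fin_cases a <;> fin_cases b <;> simp_all
  have hy : Function.Injective ![i', j', k', l'] := by
    intro a b hab
    fin_cases a <;> fin_cases b <;> simp_all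
  have := Equiv.Perm.isMultiplyPretransitive Ω 4
  obtain ⟨s, hs⟩ := MulAction.exists_smul_eq (Equiv.Perm Ω) (⟨![i, j, k, l], hx⟩ : Fin 4 ↪ Ω)
    ⟨![i', j', k', l'], hy⟩
  have hs' : ∀ a : Fin 4, s (![i, j, k, l] a) = ![i', j', k', l'] a := by
    intro a
    have := congrFun (congrArg DFunLike.coe hs) a
    exact this
  exact ⟨s, hs' 0, hs' 1, hs' 2, hs' 3⟩

theorem main : SkewE := by
  intro Ω _ _ hodd hcard β hβ U hU hst
  have hsymm : ∀ v w, β v w = β w v := by
    intro v w
    rw [hβ, hβ]
    exact Finset.sum_congr rfl fun i _ => mul_comm _ _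
  have hpair : ∀ (i j : Ω) (v : EvV Ω), β (e i j) v = v.1 i + v.1 j := by
    intro i j v
    rw [hβ]
    simp only [e_apply, add_mul, ite_mul, one_mul, zero_mul, Finset.sum_add_distrib,
      Finset.sum_ite_eq', Finset.mem_univ, if_true]
  have hcast : ((Fintype.card Ω : ℕ) : ZMod 2) = 1 := by
    obtain ⟨n, hn⟩ := hodd
    rw [hn]
    push_cast
    have h : (2 : ZMod 2) = 0 := by decide
    rw [h, zero_mul, zero_add]
  have hnd : ∀ u : EvV Ω, u ≠ 0 → ∃ w, β u w = 1 := by
    intro u hu
    obtain ⟨i, hi⟩ : ∃ i, u.1 i = 1 := by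
      by_contra hcon
      push Not at hcon
      apply hu
      apply Subtype.ext
      funext i
      exact (cases2 (u.1 i)).resolve_right (hcon i)
    obtain ⟨j, hj⟩ : ∃ j, u.1 j = 0 := by
      by_contra hcon
      push Not at hcon
      have h1 : ∀ j, u.1 j = 1 := fun j => (cases2 (u.1 j)).resolve_left (hcon j)
      have h2 := sum_zero u
      simp only [h1, Finset.sum_const, Finset.card_univ, nsmul_eq_mul, mul_one] at h2
      rw [hcast] at h2
      exact absurd h2 (by decide)
    refine ⟨e i j, ?_⟩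
    rw [hsymm, hpair, hi, hj, add_zero]
  have hpol : ∀ A ∈ skewEnd β, ∀ v w, β (A v) w = β (A w) v := by
    intro A hA v w
    have h1 : β (A (v + w)) (v + w) = 0 := hA (v + w)
    have h2 : β (A v) v = 0 := hA v
    have h3 : β (A w) w = 0 := hA w
    simp only [map_add, LinearMap.add_apply, h2, h3, zero_add, add_zero] at h1
    have h4 := two_mul_zero (β (A w) v)
    linear_combination h1 - h4
  have hTs : ∀ x y, TT β x y ∈ skewEnd β := by
    intro x y v
    show β (TT β x y v) v = 0
    rw [TT_apply, map_add, map_smul, map_smul, LinearMap.add_apply, LinearMap.smul_apply,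
      LinearMap.smul_apply, smul_eq_mul, smul_eq_mul, mul_comm (β y v)]
    exact two_mul_zero _
  have hcj : ∀ (s : Equiv.Perm Ω), ∀ A ∈ U, cj s A ∈ U := by
    intro s A hA
    refine hst s A hA (cj s A) ?_
    intro v v' hv i
    have h1 : pm s.symm v' = v := by
      apply Subtype.ext
      funext k
      rw [pm_apply, Equiv.symm_symm]
      exact hv k
    show (pm s (A (pm s.symm v'))).1 (s i) = (A v).1 i
    rw [h1, pm_apply, Equiv.symm_apply_apply]
  have hpmβ : ∀ (s : Equiv.Perm Ω) (x v : EvV Ω), β x (pm s.symm v) = β (pm s x) v := by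
    intro s x v
    rw [hβ, hβ, ← Equiv.sum_comp s (fun i => (pm s x).1 i * v.1 i)]
    refine Finset.sum_congr rfl fun i _ => ?_
    rw [pm_apply, pm_apply, Equiv.symm_symm, Equiv.symm_apply_apply]
  have hcjT : ∀ (s : Equiv.Perm Ω) (x y : EvV Ω), cj s (TT β x y) = TT β (pm s x) (pm s y) := by
    intro s x y
    apply LinearMap.ext
    intro v
    show pm s (TT β x y (pm s.symm v)) = _
    rw [TT_apply, TT_apply, map_add, map_smul, map_smul, hpmβ, hpmβ]
  -- a transposition
  have hsw : ∀ (i j : Ω), i ≠ j → ∀ v : EvV Ω,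
      pm (Equiv.swap i j) v = v + β (e i j) v • e i j := by
    intro i j hij v
    apply Subtype.ext
    funext k
    show v.1 ((Equiv.swap i j).symm k) = v.1 k + β (e i j) v * (e i j).1 k
    rw [Equiv.symm_swap, hpair, e_apply]
    by_cases hki : k = i
    · rw [hki, Equiv.swap_apply_left, if_pos rfl, if_neg hij]
      have := two_mul_zero (v.1 i)
      linear_combination -this
    by_cases hkj : k = j
    · rw [hkj, Equiv.swap_apply_right, if_pos rfl, if_neg (Ne.symm hij)]
      have := two_mul_zero (v.1 j)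
      linear_combination -this
    · rw [Equiv.swap_apply_of_ne_of_ne hki hkj, if_neg hki, if_neg hkj, add_zero, mul_zero,
        add_zero]
  by_cases hsc : ∀ A ∈ U, A = 0 ∨ A = 1
  · exact Or.inl hsc
  right
  push Not at hsc
  obtain ⟨A, hAU, hA0, hA1⟩ := hsc
  have hAs := hU hAU
  -- a generator which is not an eigenvector
  obtain ⟨i, j, hij, hx0, hx1⟩ : ∃ i j : Ω, i ≠ j ∧ A (e i j) ≠ 0 ∧ A (e i j) ≠ e i j := by
    by_contra hcon
    push Not at hcon
    rcases scalar_of hcard A (fun i j hij => by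
      by_cases h : A (e i j) = 0
      · exact Or.inl h
      · exact Or.inr (hcon i j hij h)) with h | h
    · exact hA0 h
    · exact hA1 h
  have hTA : TT β (e i j) (A (e i j)) ∈ U := by
    have h1 : cj (Equiv.swap i j) A = A + TT β (e i j) (A (e i j)) := by
      apply LinearMap.ext
      intro v
      show pm (Equiv.swap i j) (A (pm (Equiv.swap i j).symm v)) = A v + TT β (e i j) (A (e i j)) v
      rw [Equiv.symm_swap, hsw i j hij v, map_add, map_smul, hsw i j hij, TT_apply]
      have h2 : β (e i j) (A v + β (e i j) v • A (e i j)) = β (A (e i j)) v := by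
        have h3 : β (e i j) (A (e i j)) = 0 := by
          rw [hsymm]
          exact hAs (e i j)
        rw [map_add, map_smul, h3, smul_zero, add_zero, hsymm, hpol A hAs]
      rw [h2]
      module
    have h2 : TT β (e i j) (A (e i j)) = cj (Equiv.swap i j) A - A := by
      rw [h1]
      abel
    rw [h2]
    exact U.sub_mem (hcj _ A hAU) hAU
  -- normalise
  obtain ⟨y, hy0, hyi, hyj, hyU⟩ : ∃ y : EvV Ω, y ≠ 0 ∧ y.1 i = 0 ∧ y.1 j = 0 ∧
      TT β (e i j) y ∈ U := by
    have h1 : (A (e i j)).1 i + (A (e i j)).1 j = 0 := by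
      rw [← hpair, hsymm]
      exact hAs (e i j)
    rcases cases2 ((A (e i j)).1 i) with h2 | h2
    · rw [h2, zero_add] at h1
      exact ⟨A (e i j), hx0, h2, h1, hTA⟩
    · have h3 : (A (e i j)).1 j = 1 := by
        rcases cases2 ((A (e i j)).1 j) with h4 | h4
        · rw [h2, h4] at h1
          exact absurd h1 (by decide)
        · exact h4
      refine ⟨A (e i j) + e i j, ?_, ?_, ?_, ?_⟩
      · intro h4
        apply hx1
        have h5 := dbl (e i j)
        calc A (e i j) = A (e i j) + (e i j + e i j) := by rw [h5, add_zero]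
          _ = (A (e i j) + e i j) + e i j := by abel
          _ = e i j := by rw [h4, zero_add]
      · show (A (e i j)).1 i + (e i j).1 i = 0
        rw [h2, e_apply, if_pos rfl, if_neg hij, add_zero]
        exact two_mul_zero 1
      · show (A (e i j)).1 j + (e i j).1 j = 0
        rw [h3, e_apply, if_pos rfl, if_neg (Ne.symm hij), zero_add]
        exact two_mul_zero 1
      · rw [map_add, TT_self, add_zero]
        exact hTA
  obtain ⟨k, hk⟩ : ∃ k, y.1 k = 1 := by
    by_contra hcon
    push Not at hcon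
    apply hy0
    apply Subtype.ext
    funext k
    exact (cases2 (y.1 k)).resolve_right (hcon k)
  have hki : k ≠ i := by
    rintro rfl
    rw [hyi] at hk
    exact absurd hk (by decide)
  have hkj : k ≠ j := by
    rintro rfl
    rw [hyj] at hk
    exact absurd hk (by decide)
  obtain ⟨l, hli, hlj, hl⟩ : ∃ l, l ≠ i ∧ l ≠ j ∧ y.1 l = 0 := by
    by_contra hcon
    push Not at hcon
    have h1 : ∀ l ∈ (Finset.univ : Finset Ω), y.1 l =
        1 + (if l = i then 1 else 0) + (if l = j then 1 else 0) := by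
      intro l _
      by_cases h2 : l = i
      · rw [h2, hyi, if_pos rfl, if_neg hij, add_zero]
        exact (two_mul_zero 1).symm
      by_cases h3 : l = j
      · rw [h3, hyj, if_pos rfl, if_neg (Ne.symm hij), add_zero]
        exact (two_mul_zero 1).symm
      rw [if_neg h2, if_neg h3, add_zero, add_zero]
      exact (cases2 (y.1 l)).resolve_left (hcon l h2 h3)
    have h2 := sum_zero y
    rw [Finset.sum_congr rfl h1, Finset.sum_add_distrib, Finset.sum_add_distrib,
      Finset.sum_ite_eq' Finset.univ i, Finset.sum_ite_eq' Finset.univ j,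
      if_pos (Finset.mem_univ i), if_pos (Finset.mem_univ j), Finset.sum_const,
      Finset.card_univ, nsmul_eq_mul, mul_one, hcast] at h2
    exact absurd h2 (by decide)
  have hkl : k ≠ l := by
    rintro rfl
    rw [hl] at hk
    exact absurd hk (by decide)
  have hT4 : TT β (e i j) (e k l) ∈ U := by
    have h1 := hcj (Equiv.swap k l) _ hyU
    rw [hcjT, pm_e, Equiv.swap_apply_of_ne_of_ne (Ne.symm hki) (Ne.symm hli),
      Equiv.swap_apply_of_ne_of_ne (Ne.symm hkj) (Ne.symm hlj), hsw k l hkl y, hpair, hk, hl,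
      add_zero, one_smul, map_add] at h1
    have h2 := U.sub_mem h1 hyU
    rw [add_sub_cancel_left] at h2
    exact h2
  have hall : ∀ a b c d : Ω, a ≠ b → a ≠ c → a ≠ d → b ≠ c → b ≠ d → c ≠ d →
      TT β (e a b) (e c d) ∈ U := by
    intro a b c d g1 g2 g3 g4 g5 g6
    obtain ⟨s, s1, s2, s3, s4⟩ := move i j k l a b c d hij (Ne.symm hki) (Ne.symm hli)
      (Ne.symm hkj) (Ne.symm hlj) hkl g1 g2 g3 g4 g5 g6
    have h1 := hcj s _ hT4
    rw [hcjT, pm_e, pm_e, s1, s2, s3, s4] at h1
    exact h1
  -- the generators modulo `U`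
  have hstep : ∀ o a b c : Ω, a ≠ o → b ≠ o → c ≠ o → a ≠ b → a ≠ c →
      TT β (e o a) (e o b) + TT β (e o a) (e o c) ∈ U := by
    intro o a b c ao bo co ab ac
    by_cases hbc : b = c
    · rw [hbc, dblA]
      exact U.zero_mem
    · rw [← map_add]
      have h1 : e o b + e o c = e b c := by rw [e_symm o b, e_add]
      rw [h1]
      exact hall o a b c (Ne.symm ao) (Ne.symm bo) (Ne.symm co) ab ac hbc
  obtain ⟨o, _⟩ := fresh hcard (∅ : Finset Ω) (by simp)
  obtain ⟨a, hao, _⟩ := fresh5 hcard o o o o o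
  obtain ⟨b, hbo, hba, _⟩ := fresh5 hcard o a a a a
  obtain ⟨t, ht⟩ : ∃ t, t = TT β (e o a) (e o b) := ⟨_, rfl⟩
  obtain ⟨W, hW⟩ : ∃ W, W = U ⊔ Submodule.span (ZMod 2) {t} := ⟨_, rfl⟩
  have hUW : U ≤ W := by
    rw [hW]
    exact le_sup_left
  have htW : t ∈ W := by
    rw [hW]
    exact Submodule.mem_sup_right (Submodule.mem_span_singleton_self t)
  have hgen : ∀ c d : Ω, TT β (e o c) (e o d) ∈ W := by
    intro c d
    by_cases hc : c = o
    · rw [hc, e_self, map_zero, LinearMap.zero_apply]
      exact W.zero_mem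
    by_cases hd : d = o
    · rw [hd, e_self, map_zero]
      exact W.zero_mem
    by_cases hcd : c = d
    · rw [hcd, TT_self]
      exact W.zero_mem
    obtain ⟨m, mo, mc, md, ma, mb⟩ := fresh5 hcard o c d a b
    have h1 := hstep o c d m hc hd mo hcd (Ne.symm mc)
    have h2 := hstep o m c a mo hc hao mc ma
    have h3 := hstep o a m b hao mo hbo (Ne.symm ma) (Ne.symm hba)
    rw [TT_symm β (e o m) (e o c), TT_symm β (e o m) (e o a)] at h2
    rw [← ht] at h3
    have h4 := U.add_mem (U.add_mem h1 h2) h3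
    have h5 : TT β (e o c) (e o d) + TT β (e o c) (e o m) +
        (TT β (e o c) (e o m) + TT β (e o a) (e o m)) + (TT β (e o a) (e o m) + t) =
        TT β (e o c) (e o d) + t + (TT β (e o c) (e o m) + TT β (e o c) (e o m)) +
        (TT β (e o a) (e o m) + TT β (e o a) (e o m)) := by abel
    rw [h5, dblA, dblA, add_zero, add_zero] at h4
    have h6 : TT β (e o c) (e o d) = (TT β (e o c) (e o d) + t) - t := by abel
    rw [h6]
    exact W.sub_mem (hUW h4) htW
  have hTW : ∀ x y, TT β x y ∈ W := by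
    intro x y
    rw [expand o y, map_sum]
    refine W.sum_mem fun d _ => ?_
    rw [map_smul]
    refine W.smul_mem _ ?_
    rw [expand o x, map_sum, LinearMap.sum_apply]
    refine W.sum_mem fun c _ => ?_
    rw [map_smul, LinearMap.smul_apply]
    exact W.smul_mem _ (hgen c d)
  -- all the skew endomorphisms
  have hind : ∀ n : ℕ, ∀ B ∈ skewEnd β,
      finrank (ZMod 2) (EvV Ω) ≤ n + finrank (ZMod 2) (LinearMap.ker B) → B ∈ W := by
    intro n
    induction n with
    | zero =>
      intro B hB hn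
      rw [zero_add] at hn
      have h1 : LinearMap.ker B = ⊤ :=
        Submodule.eq_top_of_finrank_eq (le_antisymm (Submodule.finrank_le _) hn)
      rw [LinearMap.ker_eq_top.1 h1]
      exact W.zero_mem
    | succ n ih =>
      intro B hB hn
      by_cases hB0 : B = 0
      · rw [hB0]
        exact W.zero_mem
      obtain ⟨v, hv⟩ : ∃ v, B v ≠ 0 := by
        by_contra hcon
        push Not at hcon
        exact hB0 (LinearMap.ext hcon)
      obtain ⟨w, hw⟩ := hnd (B v) hv
      have hB' : B + TT β (B v) (B w) ∈ skewEnd β := (skewEnd β).add_mem hB (hTs _ _)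
      have hker : LinearMap.ker B < LinearMap.ker (B + TT β (B v) (B w)) := by
        rw [SetLike.lt_iff_le_and_exists]
        refine ⟨fun u hu => ?_, v, ?_, ?_⟩
        · rw [LinearMap.mem_ker] at hu ⊢
          rw [LinearMap.add_apply, hu, TT_apply, hpol B hB v u, hpol B hB w u, hu, map_zero,
            LinearMap.zero_apply, LinearMap.zero_apply, zero_smul, zero_smul, add_zero, add_zero]
        · rw [LinearMap.mem_ker, LinearMap.add_apply, TT_apply]
          have h1 : β (B v) v = 0 := hB v
          rw [h1, hpol B hB w v, hw, zero_smul, zero_add, one_smul, dbl]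
        · rw [LinearMap.mem_ker]
          exact hv
      have h2 := Submodule.finrank_lt_finrank_of_lt hker
      have h3 := ih _ hB' (by omega)
      have h4 : B = (B + TT β (B v) (B w)) - TT β (B v) (B w) := by abel
      rw [h4]
      exact W.sub_mem h3 (hTW _ _)
  have hle : skewEnd β ≤ W := fun B hB => hind (finrank (ZMod 2) (EvV Ω)) B hB (Nat.le_add_right _ _)
  calc finrank (ZMod 2) (skewEnd β) ≤ finrank (ZMod 2) W := Submodule.finrank_mono hle
    _ ≤ finrank (ZMod 2) U + finrank (ZMod 2) (Submodule.span (ZMod 2) {t}) := by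
      rw [hW]
      exact Submodule.finrank_add_le_finrank_add_finrank _ _
    _ ≤ finrank (ZMod 2) U + 1 := by
      have h1 := finrank_span_le_card (R := ZMod 2) ({t} : Set (EvV Ω →ₗ[ZMod 2] EvV Ω))
      simp only [Set.toFinset_singleton, Finset.card_singleton] at h1
      omega

end Pool.Agent.Q285.ND.Skew
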